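import Pool.Agent.Helper76.PD.GammaOdd

/-!
# The universal subcubic graphs, version for the complement
-/

set_option autoImplicit false

namespace Pool.Agent.Helper76.PD

open Finset
open scoped Classical
open Pool.Agent.Helper35.PM (HasPG vec)
open Pool.Agent.Helper32.PD (bip bip_adj_inl_inr bip_adj_inr_inl not_bip_adj_inl_inl
  not_bip_adj_inr_inr)
open Pool.Agent.Helper32.Piv (adjM adjM_comm adjM_self adjM_eq_one adjM_eq_zero PivotReach
  exists_elim)

/-- the relation of the row objects -/
def CRel {ρ κ : Type} (Rel : ρ → κ → Prop) (t : κ → Bool) : (ρ ⊕ κ) → (ρ ⊕ κ) → Prop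
  | Sum.inl r, Sum.inl r' => r = r'
  | Sum.inl r, Sum.inr c => t c = true ∧ Rel r c
  | Sum.inr c, Sum.inl r => t c = false ∧ Rel r c
  | Sum.inr _, Sum.inr _ => False

/-- Kronecker symbol -/
noncomputable def dl {V : Type} (x y : V) : ZMod 2 := if x = y then 1 else 0

/-- one minus the Kronecker symbol -/
noncomputable def nd {V : Type} (x y : V) : ZMod 2 := if x = y then 0 else 1

theorem dl_self {V : Type} (x : V) : dl x x = 1 := if_pos rfl
theorem dl_ne {V : Type} {x y : V} (h : x ≠ y) : dl x y = 0 := if_neg h
theorem nd_self {V : Type} (x : V) : nd x x = 0 := if_pos rfl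
theorem nd_ne {V : Type} {x y : V} (h : x ≠ y) : nd x y = 1 := if_neg h

theorem nd_comm {V : Type} (x y : V) : nd x y = nd y x := by
  by_cases h : x = y
  · rw [h]
  · rw [nd_ne h, nd_ne (Ne.symm h)]

theorem sum_ne_mul {V : Type} (S : Finset V) (hS : Even S.card) (s s' : V) (hs : s ∈ S)
    (hs' : s' ∈ S) : ∑ t ∈ S, nd s t * nd t s' = dl s s' := by
  have h1 : ∀ t ∈ S, nd s t * nd t s' =
      1 + (if s = t then 1 else 0) + (if t = s' then 1 else 0) +
        (if s = t then dl t s' else 0) := by
    intro t _
    by_cases h1 : s = t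
    · subst h1
      by_cases h2 : s = s'
      · subst h2
        rw [nd_self, dl_self]
        simp only [if_true]
        rfl
      · rw [nd_self, dl_ne h2, zero_mul]
        simp only [if_true, h2, if_false]
        rfl
    · by_cases h2 : t = s'
      · subst h2
        rw [nd_self, nd_ne h1]
        simp only [if_true, h1, if_false]
        rfl
      · rw [nd_ne h1, nd_ne h2]
        simp only [h2, h1, if_false]
        rfl
  rw [Finset.sum_congr rfl h1, Finset.sum_add_distrib, Finset.sum_add_distrib,
    Finset.sum_add_distrib, Finset.sum_ite_eq, if_pos hs, Finset.sum_ite_eq, if_pos hs,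
    Finset.sum_ite_eq', if_pos hs', Finset.sum_const, nsmul_eq_mul, mul_one]
  obtain ⟨m, hm⟩ := hS
  rw [hm, Nat.cast_add]
  have h2 : (m : ZMod 2) + m = 0 := add_self_zmod _
  rw [h2, zero_add, show (1 : ZMod 2) + 1 = 0 from rfl, zero_add]

theorem exists_compl {ρ κ : Type} [Fintype ρ] [Fintype κ] [DecidableEq ρ] (Rel : ρ → κ → Prop)
    (t : κ → Bool) (heven : Even (Fintype.card ρ))
    (h₀ : ∀ r, (univ.filter fun c => t c = true ∧ Rel r c).card ≤ 2)
    (h₀' : ∀ r, (univ.filter fun c => t c = false ∧ Rel r c).card ≤ 2)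
    (h₁ : ∀ c, (univ.filter fun r => Rel r c).card ≤ 3) (k : ℕ) (hP : PGD Rel k) :
    ∃ (N₀ N₁ N : ℕ) (a : Fin N → Fin N₀) (b : Fin N → Fin N₁),
    (∀ e e', a e = a e' → b e = b e' → e = e') ∧
    (∀ i, (univ.filter fun e => a e = i).card ≤ 3) ∧
    (∀ i, (univ.filter fun e => b e = i).card ≤ 3) ∧
    ∃ G' : SimpleGraph (Fin N₀ ⊕ Fin N₁), PivotReach (bip a b)ᶜ G' ∧ HasPG G' k := by
  obtain ⟨N₀, N₁, N, a, b, u, v, h1, h2, h3, h4⟩ := exists_fin (CRel Rel t)
  refine ⟨N₀, N₁, N, a, b, h1, ?_, ?_, ?_⟩
  · intro i
    obtain ⟨x, rfl⟩ := u.surjective i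
    rw [h2 x, card_filter_sum]
    rcases x with r | c
    · have e1 : (univ.filter fun r' => CRel Rel t (Sum.inl r) (Sum.inl r')).card = 1 := by
        rw [Finset.card_eq_one]
        refine ⟨r, ?_⟩
        ext r'
        simp only [Finset.mem_filter, Finset.mem_univ, true_and, Finset.mem_singleton]
        exact ⟨fun h => h.symm, fun h => h.symm⟩
      have e2 : (univ.filter fun c => CRel Rel t (Sum.inl r) (Sum.inr c)).card ≤ 2 := by
        refine le_trans (Finset.card_le_card ?_) (h₀ r)
        intro c hc
        rw [Finset.mem_filter] at hc ⊢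
        exact hc
      omega
    · have e1 : (univ.filter fun r => CRel Rel t (Sum.inr c) (Sum.inl r)).card ≤ 3 := by
        refine le_trans (Finset.card_le_card ?_) (h₁ c)
        intro r hr
        rw [Finset.mem_filter] at hr ⊢
        exact ⟨hr.1, hr.2.2⟩
      have e2 : (univ.filter fun c' => CRel Rel t (Sum.inr c) (Sum.inr c')).card = 0 := by
        rw [Finset.card_eq_zero, Finset.filter_eq_empty_iff]
        exact fun _ _ h => h
      omega
  · intro i
    obtain ⟨y, rfl⟩ := v.surjective i
    rw [h3 y, card_filter_sum]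
    rcases y with r | c
    · have e1 : (univ.filter fun r' => CRel Rel t (Sum.inl r') (Sum.inl r)).card = 1 := by
        rw [Finset.card_eq_one]
        refine ⟨r, ?_⟩
        ext r'
        simp only [Finset.mem_filter, Finset.mem_univ, true_and, Finset.mem_singleton]
        exact ⟨fun h => h, fun h => h⟩
      have e2 : (univ.filter fun c => CRel Rel t (Sum.inr c) (Sum.inl r)).card ≤ 2 := by
        refine le_trans (Finset.card_le_card ?_) (h₀' r)
        intro c hc
        rw [Finset.mem_filter] at hc ⊢
        exact hc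
      omega
    · have e1 : (univ.filter fun r => CRel Rel t (Sum.inl r) (Sum.inr c)).card ≤ 3 := by
        refine le_trans (Finset.card_le_card ?_) (h₁ c)
        intro r hr
        rw [Finset.mem_filter] at hr ⊢
        exact ⟨hr.1, hr.2.2⟩
      have e2 : (univ.filter fun c' => CRel Rel t (Sum.inr c') (Sum.inr c)).card = 0 := by
        rw [Finset.card_eq_zero, Finset.filter_eq_empty_iff]
        exact fun _ _ h => h
      omega
  · set G : SimpleGraph (Fin N₀ ⊕ Fin N₁) := (bip a b)ᶜ with hG
    set φ : ρ → Fin N₀ ⊕ Fin N₁ := fun r => Sum.inl (u (Sum.inl r)) with hφ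
    set U : ρ → Fin N₀ ⊕ Fin N₁ := fun r => Sum.inr (v (Sum.inl r)) with hU
    set ψ : κ → Fin N₀ ⊕ Fin N₁ := fun c =>
      if t c = false then Sum.inl (u (Sum.inr c)) else Sum.inr (v (Sum.inr c)) with hψ
    have hφinj : Function.Injective φ := fun r r' h =>
      Sum.inl_injective (u.injective (Sum.inl_injective h))
    have hUinj : Function.Injective U := fun r r' h =>
      Sum.inl_injective (v.injective (Sum.inr_injective h))
    have hll : ∀ i i', adjM G (Sum.inl i) (Sum.inl i') = if i = i' then 0 else 1 := by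
      intro i i'
      by_cases h : i = i'
      · rw [if_pos h, h, adjM_self]
      · rw [if_neg h, adjM_eq_one, hG, SimpleGraph.compl_adj]
        exact ⟨fun h5 => h (Sum.inl_injective h5), not_bip_adj_inl_inl a b _ _⟩
    have hrr : ∀ i i', adjM G (Sum.inr i) (Sum.inr i') = if i = i' then 0 else 1 := by
      intro i i'
      by_cases h : i = i'
      · rw [if_pos h, h, adjM_self]
      · rw [if_neg h, adjM_eq_one, hG, SimpleGraph.compl_adj]
        exact ⟨fun h5 => h (Sum.inr_injective h5), not_bip_adj_inr_inr a b _ _⟩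
    have hlr : ∀ x y, adjM G (Sum.inl (u x)) (Sum.inr (v y)) = if CRel Rel t x y then 0 else 1 := by
      intro x y
      by_cases h : CRel Rel t x y
      · rw [if_pos h, adjM_eq_zero, hG, SimpleGraph.compl_adj]
        rintro ⟨_, h5⟩
        exact h5 ((bip_adj_inl_inr a b _ _).2 ((h4 x y).2 h))
      · rw [if_neg h, adjM_eq_one, hG, SimpleGraph.compl_adj]
        refine ⟨by simp, fun h5 => h ((h4 x y).1 ((bip_adj_inl_inr a b _ _).1 h5))⟩
    set S : Finset (Fin N₀ ⊕ Fin N₁) := univ.image U with hS
    have hScard : S.card = Fintype.card ρ := by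
      rw [hS, Finset.card_image_of_injective _ hUinj]
      rfl
    have hSmem : ∀ r, U r ∈ S := fun r => Finset.mem_image_of_mem U (Finset.mem_univ r)
    have hSex : ∀ s ∈ S, ∃ r, U r = s := by
      intro s hs
      rw [hS, Finset.mem_image] at hs
      obtain ⟨r, _, hr⟩ := hs
      exact ⟨r, hr⟩
    have hSS : ∀ s ∈ S, ∀ s' ∈ S, adjM G s s' = nd s s' := by
      intro s hs s' hs'
      obtain ⟨r, rfl⟩ := hSex s hs
      obtain ⟨r', rfl⟩ := hSex s' hs'
      by_cases h : r = r'
      · subst h
        rw [nd_self, adjM_self]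
      · rw [nd_ne (fun h5 => h (hUinj h5))]
        simp only [hU]
        rw [hrr, if_neg]
        exact fun h5 => h (Sum.inl_injective (v.injective h5))
    obtain ⟨G', hG', hG'eq⟩ := exists_elim G S nd (fun s _ s' _ => nd_comm s s')
      (by
        intro s hs s' hs'
        rw [Finset.sum_congr rfl fun x hx => by rw [hSS s hs x hx],
          sum_ne_mul S (hScard ▸ heven) s s' hs hs']
        by_cases h : s = s'
        · rw [h, dl_self, if_pos rfl]
        · rw [dl_ne h, if_neg h])
    have hφU : ∀ r, ∀ s ∈ S, adjM G (φ r) s = nd (U r) s := by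
      intro r s hs
      obtain ⟨r', rfl⟩ := hSex s hs
      by_cases h : r = r'
      · subst h
        rw [nd_self]
        simp only [hφ, hU]
        rw [hlr, if_pos]
        exact rfl
      · rw [nd_ne (fun h5 => h (hUinj h5))]
        simp only [hφ, hU]
        rw [hlr, if_neg]
        exact h
    have hφS : ∀ r, φ r ∉ S := by
      intro r h
      obtain ⟨r', h5⟩ := hSex _ h
      simp [hφ, hU] at h5
    have hψS : ∀ c, ψ c ∉ S := by
      intro c h
      obtain ⟨r', h5⟩ := hSex _ h
      simp only [hψ, hU] at h5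
      by_cases h6 : t c = false
      · rw [if_pos h6] at h5
        simp at h5
      · rw [if_neg h6] at h5
        have := v.injective (Sum.inr_injective h5)
        simp at this
    have hkey : ∀ r y, y ∉ S → adjM G' (φ r) y = adjM G (φ r) y + adjM G (U r) y := by
      intro r y hy
      rw [hG'eq _ _ (hφS r) hy, Finset.sum_comm]
      congr 1
      have h5 : ∀ s' ∈ S, ∑ s ∈ S, adjM G (φ r) s * nd s s' * adjM G s' y =
          if U r = s' then adjM G s' y else 0 := by
        intro s' hs'
        rw [← Finset.sum_mul]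
        have h6 : ∑ s ∈ S, adjM G (φ r) s * nd s s' = dl (U r) s' := by
          rw [← sum_ne_mul S (hScard ▸ heven) (U r) s' (hSmem r) hs']
          exact Finset.sum_congr rfl fun x hx => by rw [hφU r x hx]
        rw [h6]
        by_cases h7 : U r = s'
        · rw [if_pos h7, h7, dl_self, one_mul]
        · rw [if_neg h7, dl_ne h7, zero_mul]
      rw [Finset.sum_congr rfl h5, Finset.sum_ite_eq, if_pos (hSmem r)]
    refine ⟨G', hG', hasPG_of_PGD hP G' φ ψ hφinj ?_ ?_ ?_⟩
    · intro r r'
      rw [← adjM_eq_zero, hkey r _ (hφS r'), adjM_comm G (U r)]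
      rw [hφU r' (U r) (hSmem r)]
      by_cases h : r = r'
      · subst h
        rw [nd_self, adjM_self, add_zero]
      · rw [nd_ne (fun h5 => h (hUinj h5).symm)]
        simp only [hφ]
        rw [hll, if_neg (fun h5 => h (Sum.inl_injective (u.injective h5)))]
        rfl
    · intro c r h5
      simp only [hψ, hφ] at h5
      by_cases h6 : t c = false
      · rw [if_pos h6] at h5
        have := u.injective (Sum.inl_injective h5)
        simp at this
      · rw [if_neg h6] at h5
        simp at h5
    · intro c r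
      rw [SimpleGraph.adj_comm, ← adjM_eq_one, hkey r _ (hψS c)]
      simp only [hψ]
      by_cases h6 : t c = false
      · rw [if_pos h6]
        simp only [hφ, hU]
        rw [hll, adjM_comm G, hlr, if_neg (fun h7 => by
          have := u.injective h7
          simp at this)]
        by_cases h8 : Rel r c
        · rw [if_pos (show CRel Rel t (Sum.inr c) (Sum.inl r) from ⟨h6, h8⟩)]
          simp [h8]
        · rw [if_neg (show ¬ CRel Rel t (Sum.inr c) (Sum.inl r) from fun h9 => h8 h9.2)]
          simp only [h8, iff_false]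
          decide
      · rw [if_neg h6]
        simp only [hφ, hU]
        rw [hrr, hlr, if_neg (fun h7 => by
          have := v.injective h7
          simp at this : ¬ v (Sum.inl r) = v (Sum.inr c))]
        have h6' : t c = true := by
          cases h9 : t c
          · exact absurd h9 h6
          · rfl
        by_cases h8 : Rel r c
        · rw [if_pos (show CRel Rel t (Sum.inl r) (Sum.inr c) from ⟨h6', h8⟩)]
          simp [h8]
        · rw [if_neg (show ¬ CRel Rel t (Sum.inl r) (Sum.inr c) from fun h9 => h8 h9.2)]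
          simp only [h8, iff_false]
          decide

end Pool.Agent.Helper76.PD

namespace Pool.Agent.Helper32.PD

open Finset
open scoped Classical
open Pool.Agent.Helper35.PM in
/-- for the residue `0 mod 3` -/
theorem exists_gamma_compl (k : ℕ) : ∃ (N₀ N₁ N : ℕ) (a : Fin N → Fin N₀) (b : Fin N → Fin N₁),
    (∀ e e', a e = a e' → b e = b e' → e = e') ∧
    (∀ i, (univ.filter fun e => a e = i).card ≤ 3) ∧
    (∀ i, (univ.filter fun e => b e = i).card ≤ 3) ∧
    ∃ G' : SimpleGraph (Fin N₀ ⊕ Fin N₁), Pool.Agent.Helper32.Piv.PivotReach (bip a b)ᶜ G' ∧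
      HasPG G' k := by
  rcases Nat.eq_zero_or_pos k with hk | hk
  · subst hk
    refine ⟨1, 1, 1, id, id, fun e e' h _ => h, ?_, ?_, _, Relation.ReflTransGen.refl, ?_⟩
    · intro i
      exact (Finset.card_le_univ _).trans (by simp)
    · intro i
      exact (Finset.card_le_univ _).trans (by simp)
    · refine ⟨∅, by simp, ∅, fun _ => Sum.inl 0, 0, by simp, ?_, ?_⟩
      · rintro S ⟨x, _⟩
        exact x.elim0
      · rintro S ⟨x, _⟩
        exact x.elim0
  · refine Pool.Agent.Helper76.PD.exists_compl (Pool.Agent.Helper76.PD.URel k) Prod.fst ?_ ?_ ?_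
      Pool.Agent.Helper76.PD.card_col_le k (Pool.Agent.Helper76.PD.pgd_URel k hk)
    · rw [Fintype.card_prod, Fintype.card_bool]
      exact even_two_mul _
    · intro r
      refine (Pool.Agent.Helper76.PD.card_row_true r).trans ?_
      split_ifs <;> omega
    · intro r
      refine (Pool.Agent.Helper76.PD.card_row_false r).trans ?_
      split_ifs <;> omega

end Pool.Agent.Helper32.PD
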