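import Pool.Agent.Helper76.PD.Gamma

/-!
# The universal subcubic graphs, odd version
-/

set_option autoImplicit false

namespace Pool.Agent.Helper76.PD

open Finset
open scoped Classical
open Pool.Agent.Helper35.PM (HasPG vec)
open Pool.Agent.Helper32.PD (bip bip_adj_inl_inr bip_adj_inr_inl not_bip_adj_inl_inl
  not_bip_adj_inr_inr)

theorem card_filter_sum {α β : Type} [Fintype α] [Fintype β] (P : α ⊕ β → Prop) :
    (univ.filter P).card = (univ.filter fun a => P (Sum.inl a)).card +
      (univ.filter fun b => P (Sum.inr b)).card := by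
  simp only [Finset.card_filter, Fintype.sum_sum_type]

theorem card_filter_eq' {α : Type} [Fintype α] (x : α) :
    (univ.filter fun a => x = a).card = 1 := by
  rw [Finset.filter_eq, if_pos (Finset.mem_univ x), Finset.card_singleton]

theorem card_filter_sub {α : Type} (Q : α → Prop) [DecidablePred Q] [Fintype {a : α // Q a}]
    (x : α) :
    (univ.filter fun a : {a : α // Q a} => a.1 = x).card = if Q x then 1 else 0 := by
  by_cases h : Q x
  · rw [if_pos h, Finset.card_eq_one]
    refine ⟨⟨x, h⟩, ?_⟩
    ext a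
    simp only [Finset.mem_filter, Finset.mem_univ, true_and, Finset.mem_singleton]
    exact ⟨fun h1 => Subtype.ext h1, fun h1 => by rw [h1]⟩
  · rw [if_neg h, Finset.card_eq_zero, Finset.filter_eq_empty_iff]
    intro a _ h1
    exact h (h1 ▸ a.2)

/-- the relation with pendants at the elements of even degree -/
def PRel {ρ κ : Type} [Fintype ρ] [Fintype κ] (Rel : ρ → κ → Prop) :
    (ρ ⊕ {c : κ // Even (univ.filter fun r => Rel r c).card}) →
    (κ ⊕ {r : ρ // Even (univ.filter fun c => Rel r c).card}) → Prop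
  | Sum.inl r, Sum.inl c => Rel r c
  | Sum.inl r, Sum.inr r' => r'.1 = r
  | Sum.inr c', Sum.inl c => c'.1 = c
  | Sum.inr _, Sum.inr _ => False

theorem odd_aux {d : ℕ} (h : d ≤ 3) :
    (d + if Even d then 1 else 0) % 2 = 1 ∧ (d + if Even d then 1 else 0) ≤ 3 := by
  interval_cases d <;> decide

theorem exists_odd {ρ κ : Type} [Fintype ρ] [Fintype κ] [DecidableEq ρ] (Rel : ρ → κ → Prop)
    (h₀ : ∀ r, (univ.filter fun c => Rel r c).card ≤ 3)
    (h₁ : ∀ c, (univ.filter fun r => Rel r c).card ≤ 3) (k : ℕ) (hP : PGD Rel k) :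
    ∃ (N₀ N₁ N : ℕ) (a : Fin N → Fin N₀) (b : Fin N → Fin N₁),
    (∀ e e', a e = a e' → b e = b e' → e = e') ∧
    (∀ i, (univ.filter fun e => a e = i).card % 2 = 1 ∧
      (univ.filter fun e => a e = i).card ≤ 3) ∧
    (∀ i, (univ.filter fun e => b e = i).card % 2 = 1 ∧
      (univ.filter fun e => b e = i).card ≤ 3) ∧ HasPG (bip a b) k := by
  obtain ⟨N₀, N₁, N, a, b, u, v, h1, h2, h3, h4⟩ := exists_fin (PRel Rel)
  refine ⟨N₀, N₁, N, a, b, h1, ?_, ?_, ?_⟩
  · intro i
    obtain ⟨x, rfl⟩ := u.surjective i
    rw [h2 x, card_filter_sum]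
    rcases x with r | c
    · have e1 : (univ.filter fun c => PRel Rel (Sum.inl r) (Sum.inl c)).card =
          (univ.filter fun c => Rel r c).card := rfl
      have e2 : (univ.filter fun r' => PRel Rel (Sum.inl r) (Sum.inr r')).card =
          if Even (univ.filter fun c => Rel r c).card then 1 else 0 := card_filter_sub _ r
      rw [e1, e2]
      exact odd_aux (h₀ r)
    · have e1 : (univ.filter fun c' => PRel Rel (Sum.inr c) (Sum.inl c')).card = 1 :=
        card_filter_eq' c.1
      have e2 : (univ.filter fun r' => PRel Rel (Sum.inr c) (Sum.inr r')).card = 0 := by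
        rw [Finset.card_eq_zero, Finset.filter_eq_empty_iff]
        exact fun _ _ h => h
      rw [e1, e2]
      simp
  · intro i
    obtain ⟨y, rfl⟩ := v.surjective i
    rw [h3 y, card_filter_sum]
    rcases y with c | r
    · have e1 : (univ.filter fun r => PRel Rel (Sum.inl r) (Sum.inl c)).card =
          (univ.filter fun r => Rel r c).card := rfl
      have e2 : (univ.filter fun c' => PRel Rel (Sum.inr c') (Sum.inl c)).card =
          if Even (univ.filter fun r => Rel r c).card then 1 else 0 := card_filter_sub _ c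
      rw [e1, e2]
      exact odd_aux (h₁ c)
    · have e1 : (univ.filter fun r' => PRel Rel (Sum.inl r') (Sum.inr r)).card = 1 :=
        card_filter_eq' r.1
      have e2 : (univ.filter fun c' => PRel Rel (Sum.inr c') (Sum.inr r)).card = 0 := by
        rw [Finset.card_eq_zero, Finset.filter_eq_empty_iff]
        exact fun _ _ h => h
      rw [e1, e2]
      simp
  · refine hasPG_of_PGD hP (bip a b) (fun r => Sum.inl (u (Sum.inl r)))
      (fun c => Sum.inr (v (Sum.inl c))) ?_ ?_ ?_ ?_
    · intro r r' h
      exact Sum.inl_injective (u.injective (Sum.inl_injective h))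
    · intro r r'
      exact not_bip_adj_inl_inl a b _ _
    · intro c r
      simp
    · intro c r
      rw [bip_adj_inr_inl, h4]
      exact Iff.rfl

end Pool.Agent.Helper76.PD

namespace Pool.Agent.Helper32.PD

open Finset
open scoped Classical
open Pool.Agent.Helper35.PM in
/-- for the residues `0 mod 2` and `1 mod 3`: all degrees are 1 or 3 -/
theorem exists_gamma_odd (k : ℕ) : ∃ (N₀ N₁ N : ℕ) (a : Fin N → Fin N₀) (b : Fin N → Fin N₁),
    (∀ e e', a e = a e' → b e = b e' → e = e') ∧
    (∀ i, (univ.filter fun e => a e = i).card % 2 = 1 ∧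
      (univ.filter fun e => a e = i).card ≤ 3) ∧
    (∀ i, (univ.filter fun e => b e = i).card % 2 = 1 ∧
      (univ.filter fun e => b e = i).card ≤ 3) ∧ HasPG (bip a b) k := by
  rcases Nat.eq_zero_or_pos k with hk | hk
  · subst hk
    refine ⟨1, 1, 1, id, id, fun e e' h _ => h, ?_, ?_, ?_⟩
    · intro i
      rw [Finset.filter_true_of_mem (fun x _ => Subsingleton.elim _ _)]
      simp
    · intro i
      rw [Finset.filter_true_of_mem (fun x _ => Subsingleton.elim _ _)]
      simp
    · refine ⟨∅, by simp, ∅, fun _ => Sum.inl 0, 0, by simp, ?_, ?_⟩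
      · rintro S ⟨x, _⟩
        exact x.elim0
      · rintro S ⟨x, _⟩
        exact x.elim0
  · exact Pool.Agent.Helper76.PD.exists_odd (Pool.Agent.Helper76.PD.URel k)
      Pool.Agent.Helper76.PD.card_row_le Pool.Agent.Helper76.PD.card_col_le k
      (Pool.Agent.Helper76.PD.pgd_URel k hk)

end Pool.Agent.Helper32.PD
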