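import Mathlib

/-!
# The universal relation of degree at most three for projective spaces
-/

set_option autoImplicit false

namespace Pool.Agent.Helper76.PD

open Finset
open scoped Classical

/-- the column vector -/
noncomputable def cv {ρ κ : Type} (Rel : ρ → κ → Prop) (c : κ) : ρ → ZMod 2 :=
  fun r => if Rel r c then 1 else 0

/-- projective data on the rows of a relation -/
def PGD {ρ κ : Type} [DecidableEq ρ] (Rel : ρ → κ → Prop) (k : ℕ) : Prop :=
  ∃ (D : Set κ) (f : Finset (Fin k) → ρ) (Φ : (ρ → ZMod 2) →ₗ[ZMod 2] (Fin k → ZMod 2)),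
    (∀ d ∈ D, Φ (cv Rel d) = 0) ∧
    (∀ S : Finset (Fin k), S.Nonempty → Φ (Pi.single (f S) 1) = fun i => if i ∈ S then 1 else 0) ∧
    (∀ S : Finset (Fin k), S.Nonempty →
      (Pi.single (f S) 1 : ρ → ZMod 2) - ∑ i ∈ S, Pi.single (f {i}) 1 ∈
        Submodule.span (ZMod 2) (cv Rel '' D))

theorem add_self_zmod {M : Type*} [AddCommGroup M] [Module (ZMod 2) M] (x : M) : x + x = 0 := by
  have h : ((1 : ZMod 2) + 1) • x = 0 := by
    rw [show (1 : ZMod 2) + 1 = 0 from rfl, zero_smul]
  rwa [add_smul, one_smul] at h

theorem eq_of_add_zmod {M : Type*} [AddCommGroup M] [Module (ZMod 2) M] {x y : M}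
    (h : x + y = 0) : x = y := by
  have h2 := add_self_zmod y
  have : x + y = y + y := by rw [h, h2]
  exact add_right_cancel this

/-- the number of blocks -/
noncomputable abbrev bl (k : ℕ) : ℕ := Fintype.card (Finset (Fin k))

/-- the enumeration of the subsets -/
noncomputable def en (k : ℕ) : Finset (Fin k) ≃ Fin (bl k) := Fintype.equivFin _

/-- the universal relation -/
def URel (k : ℕ) (r c : Bool × Fin k × Fin (bl k)) : Prop :=
  (c.1 = false ∧ r.1 = false ∧ r.2.1 = c.2.1 ∧ (r.2.2 = c.2.2 ∨ (r.2.2 : ℕ) = c.2.2 + 1)) ∨
  (c.1 = true ∧ r.2.2 = c.2.2 ∧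
    ((r.1 = true ∧ (r.2.1 = c.2.1 ∨ (r.2.1 : ℕ) + 1 = c.2.1)) ∨
      (r.1 = false ∧ r.2.1 = c.2.1 ∧ c.2.1 ∈ (en k).symm c.2.2)))

/-- the vectors of the rows -/
noncomputable def wt (k : ℕ) (r : Bool × Fin k × Fin (bl k)) : Fin k → ZMod 2 :=
  if r.1 = false then Pi.single r.2.1 1
  else fun j => if j ≤ r.2.1 ∧ j ∈ (en k).symm r.2.2 then 1 else 0

theorem cv_false {k : ℕ} (i : Fin k) (t t' : Fin (bl k)) (h : (t' : ℕ) = t + 1) :
    cv (URel k) (false, i, t) = Pi.single (false, i, t) 1 + Pi.single (false, i, t') 1 := by
  funext r
  obtain ⟨b, i', s⟩ := r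
  simp only [cv, URel, Pi.add_apply, Pi.single_apply, Prod.mk.injEq]
  have htt : t ≠ t' := by
    intro hh
    rw [hh] at h
    omega
  cases b
  · by_cases h1 : i' = i
    · subst h1
      by_cases h2 : s = t
      · subst h2
        simp [htt]
      · by_cases h3 : s = t'
        · subst h3
          simp [h2, h]
        · have h4 : ¬ ((s : ℕ) = t + 1) := by
            intro h5
            exact h3 (Fin.ext (by omega))
          simp [h2, h3, h4]
    · simp [h1]
  · simp

theorem cv_true_zero {k : ℕ} (i : Fin k) (t : Fin (bl k)) (hi : (i : ℕ) = 0) :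
    cv (URel k) (true, i, t) = Pi.single (true, i, t) 1 +
      (if i ∈ (en k).symm t then Pi.single (false, i, t) 1 else 0) := by
  funext r
  obtain ⟨b, i', s⟩ := r
  simp only [cv, URel, Pi.add_apply, Pi.single_apply, Prod.mk.injEq]
  have h0 : ¬ ((i' : ℕ) + 1 = i) := by omega
  cases b
  · by_cases h1 : i' = i
    · subst h1
      by_cases h2 : s = t
      · subst h2
        by_cases h3 : i' ∈ (en k).symm s <;> simp [h3]
      · by_cases h3 : i' ∈ (en k).symm t <;> simp [h2, h3]
    · by_cases h3 : i ∈ (en k).symm t <;> simp [h1, h3]
  · by_cases h3 : i ∈ (en k).symm t <;> simp [h0, h3, and_comm]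

theorem cv_true_succ {k : ℕ} (i j : Fin k) (t : Fin (bl k)) (hi : (j : ℕ) + 1 = i) :
    cv (URel k) (true, i, t) = Pi.single (true, i, t) 1 + Pi.single (true, j, t) 1 +
      (if i ∈ (en k).symm t then Pi.single (false, i, t) 1 else 0) := by
  funext r
  obtain ⟨b, i', s⟩ := r
  simp only [cv, URel, Pi.add_apply, Pi.single_apply, Prod.mk.injEq]
  have hji : j ≠ i := by
    intro hh
    rw [hh] at hi
    omega
  cases b
  · by_cases h1 : i' = i
    · subst h1
      by_cases h2 : s = t
      · subst h2
        by_cases h3 : i' ∈ (en k).symm s <;> simp [h3]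
      · by_cases h3 : i' ∈ (en k).symm t <;> simp [h2, h3]
    · by_cases h3 : i ∈ (en k).symm t <;> simp [h1, h3]
  · by_cases h2 : s = t
    · subst h2
      by_cases h1 : i' = i
      · subst h1
        by_cases h3 : i' ∈ (en k).symm s <;> simp [h3, Ne.symm hji]
      · by_cases h4 : i' = j
        · subst h4
          by_cases h3 : i ∈ (en k).symm s <;> simp [h3, hi, hji]
        · have h5 : ¬ ((i' : ℕ) + 1 = i) := by
            intro h6
            exact h4 (Fin.ext (by omega))
          by_cases h3 : i ∈ (en k).symm s <;> simp [h3, h1, h4, h5]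
    · by_cases h3 : i ∈ (en k).symm t <;> simp [h2, h3]

theorem pgd_URel (k : ℕ) (hk : 0 < k) : PGD (URel k) k := by
  set D : Set (Bool × Fin k × Fin (bl k)) := {c | c.1 = true ∨ (c.2.2 : ℕ) + 1 < bl k} with hD
  set f : Finset (Fin k) → Bool × Fin k × Fin (bl k) :=
    fun S => (true, ⟨k - 1, by omega⟩, en k S) with hf
  have hfalse : ∀ (i : Fin k) (t : Fin (bl k)), wt k (false, i, t) = Pi.single i 1 := by
    intro i t
    simp [wt]
  have htrue : ∀ (i : Fin k) (t : Fin (bl k)), wt k (true, i, t) =
      fun j => if j ≤ i ∧ j ∈ (en k).symm t then 1 else 0 := by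
    intro i t
    simp [wt]
  refine ⟨D, f, Fintype.linearCombination (ZMod 2) (wt k), ?_, ?_, ?_⟩
  · rintro ⟨b, i, t⟩ hd
    cases b
    · have ht : (t : ℕ) + 1 < bl k := by
        rcases hd with h | h
        · exact absurd h (by simp)
        · exact h
      rw [cv_false i t ⟨t + 1, ht⟩ rfl, map_add, Fintype.linearCombination_apply_single,
        Fintype.linearCombination_apply_single, hfalse, hfalse, one_smul]
      exact add_self_zmod _
    · by_cases hi : (i : ℕ) = 0
      · rw [cv_true_zero i t hi, map_add, Fintype.linearCombination_apply_single, htrue, one_smul]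
        by_cases h3 : i ∈ (en k).symm t
        · rw [if_pos h3, Fintype.linearCombination_apply_single, hfalse, one_smul]
          funext j
          simp only [Pi.add_apply, Pi.single_apply, Pi.zero_apply]
          by_cases hj : j = i
          · subst hj
            simp [h3]
            rfl
          · have : ¬ j ≤ i := by
              intro h
              exact hj (Fin.ext (by have := Fin.le_def.1 h; omega))
            simp [hj, this]
        · rw [if_neg h3, map_zero, add_zero]
          funext j
          simp only [Pi.zero_apply]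
          rw [if_neg]
          rintro ⟨h4, h5⟩
          have : j = i := Fin.ext (by have := Fin.le_def.1 h4; omega)
          rw [this] at h5
          exact h3 h5
      · have hj1 : (⟨(i : ℕ) - 1, by omega⟩ : Fin k).val + 1 = i := by
          simp only
          omega
        rw [cv_true_succ i ⟨(i : ℕ) - 1, by omega⟩ t hj1, map_add, map_add,
          Fintype.linearCombination_apply_single, Fintype.linearCombination_apply_single, htrue,
          htrue, one_smul, one_smul]
        by_cases h3 : i ∈ (en k).symm t
        · rw [if_pos h3, Fintype.linearCombination_apply_single, hfalse, one_smul]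
          funext j
          simp only [Pi.add_apply, Pi.single_apply, Pi.zero_apply]
          by_cases hj : j = i
          · subst hj
            have : ¬ j ≤ ⟨(j : ℕ) - 1, by omega⟩ := by
              rw [Fin.le_def]
              simp only
              omega
            simp [h3, this]
            rfl
          · by_cases h4 : j ≤ i
            · have h5 : j ≤ ⟨(i : ℕ) - 1, by omega⟩ := by
                rw [Fin.le_def] at h4 ⊢
                simp only
                have : (j : ℕ) ≠ i := fun h => hj (Fin.ext h)
                omega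
              by_cases h6 : j ∈ (en k).symm t
              · simp [h4, h5, h6, hj]
                rfl
              · simp [h6, hj]
            · have h5 : ¬ j ≤ ⟨(i : ℕ) - 1, by omega⟩ := by
                rw [Fin.le_def] at h4 ⊢
                simp only
                omega
              simp [h4, h5, hj]
        · rw [if_neg h3, map_zero, add_zero]
          funext j
          simp only [Pi.add_apply, Pi.zero_apply]
          by_cases hj : j = i
          · subst hj
            simp [h3]
          · by_cases h4 : j ≤ i
            · have h5 : j ≤ ⟨(i : ℕ) - 1, by omega⟩ := by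
                rw [Fin.le_def] at h4 ⊢
                simp only
                have : (j : ℕ) ≠ i := fun h => hj (Fin.ext h)
                omega
              by_cases h6 : j ∈ (en k).symm t
              · simp [h4, h5, h6]
                rfl
              · simp [h6]
            · have h5 : ¬ j ≤ ⟨(i : ℕ) - 1, by omega⟩ := by
                rw [Fin.le_def] at h4 ⊢
                simp only
                omega
              simp [h4, h5]
  · intro S _
    rw [Fintype.linearCombination_apply_single, one_smul, hf, htrue]
    funext j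
    have : j ≤ (⟨k - 1, by omega⟩ : Fin k) := by
      rw [Fin.le_def]
      simp only
      omega
    simp [this]
  · intro S _
    set P : Submodule (ZMod 2) (Bool × Fin k × Fin (bl k) → ZMod 2) :=
      Submodule.span (ZMod 2) (cv (URel k) '' D) with hP
    have hmem : ∀ c ∈ D, P.mkQ (cv (URel k) c) = 0 := by
      intro c hc
      rw [Submodule.mkQ_apply, Submodule.Quotient.mk_eq_zero]
      exact Submodule.subset_span ⟨c, hc, rfl⟩
    have h1 : ∀ (i : Fin k) (n : ℕ) (hn : n < bl k),
        P.mkQ (Pi.single (false, i, ⟨n, hn⟩) 1) =
          P.mkQ (Pi.single (false, i, ⟨0, by omega⟩) 1) := by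
      intro i n
      induction n with
      | zero => intro hn; rfl
      | succ n ih =>
        intro hn
        rw [← ih (by omega)]
        have h2 := hmem (false, i, ⟨n, by omega⟩) (Or.inr hn)
        rw [cv_false i ⟨n, by omega⟩ ⟨n + 1, hn⟩ rfl, map_add] at h2
        exact (eq_of_add_zmod h2).symm
    have hpos : 0 < bl k := Fintype.card_pos
    have h1' : ∀ (i : Fin k) (t : Fin (bl k)), P.mkQ (Pi.single (false, i, t) 1) =
        P.mkQ (Pi.single (false, i, ⟨0, hpos⟩) 1) := fun i t => h1 i t.1 t.2
    have h2 : ∀ (n : ℕ) (hn : n < k) (t : Fin (bl k)),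
        P.mkQ (Pi.single (true, ⟨n, hn⟩, t) 1) =
          ∑ j ∈ univ.filter (fun j : Fin k => (j : ℕ) ≤ n ∧ j ∈ (en k).symm t),
            P.mkQ (Pi.single (false, j, ⟨0, hpos⟩) 1) := by
      intro n
      induction n with
      | zero =>
        intro hn t
        have h3 := hmem (true, ⟨0, hn⟩, t) (Or.inl rfl)
        rw [cv_true_zero _ t rfl, map_add] at h3
        rw [eq_of_add_zmod h3]
        by_cases h4 : (⟨0, hn⟩ : Fin k) ∈ (en k).symm t
        · rw [if_pos h4, h1']
          rw [Finset.sum_eq_single ⟨0, hn⟩]
          · intro j hj hne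
            rw [Finset.mem_filter] at hj
            exact absurd (Fin.ext (by simp only; omega)) hne
          · intro h
            exact absurd (by simp [h4]) h
        · rw [if_neg h4, map_zero]
          symm
          apply Finset.sum_eq_zero
          intro j hj
          rw [Finset.mem_filter] at hj
          have : j = ⟨0, hn⟩ := Fin.ext (by simp only; omega)
          rw [this] at hj
          exact absurd hj.2.2 h4
      | succ n ih =>
        intro hn t
        have h3 := hmem (true, ⟨n + 1, hn⟩, t) (Or.inl rfl)
        rw [cv_true_succ _ ⟨n, by omega⟩ t rfl, map_add, map_add, add_assoc] at h3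
        rw [eq_of_add_zmod h3, ih (by omega) t]
        by_cases h4 : (⟨n + 1, hn⟩ : Fin k) ∈ (en k).symm t
        · rw [if_pos h4, h1']
          have h5 : univ.filter (fun j : Fin k => (j : ℕ) ≤ n + 1 ∧ j ∈ (en k).symm t) =
              insert ⟨n + 1, hn⟩
                (univ.filter (fun j : Fin k => (j : ℕ) ≤ n ∧ j ∈ (en k).symm t)) := by
            ext j
            simp only [Finset.mem_filter, Finset.mem_univ, true_and, Finset.mem_insert]
            constructor
            · rintro ⟨h6, h7⟩
              by_cases h8 : (j : ℕ) = n + 1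
              · exact Or.inl (Fin.ext h8)
              · exact Or.inr ⟨by omega, h7⟩
            · rintro (h6 | ⟨h6, h7⟩)
              · rw [h6]
                exact ⟨le_rfl, h4⟩
              · exact ⟨by omega, h7⟩
          rw [h5, Finset.sum_insert (by simp), add_comm]
        · rw [if_neg h4, map_zero, add_zero]
          congr 1
          ext j
          simp only [Finset.mem_filter, Finset.mem_univ, true_and]
          constructor
          · rintro ⟨h6, h7⟩
            exact ⟨by omega, h7⟩
          · rintro ⟨h6, h7⟩
            refine ⟨?_, h7⟩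
            by_contra h8
            have : j = ⟨n + 1, hn⟩ := Fin.ext (by simp only; omega)
            rw [this] at h7
            exact h4 h7
    have h3 : ∀ S' : Finset (Fin k), P.mkQ (Pi.single (f S') 1) =
        ∑ j ∈ S', P.mkQ (Pi.single (false, j, ⟨0, hpos⟩) 1) := by
      intro S'
      rw [hf, h2]
      congr 1
      ext j
      simp only [Finset.mem_filter, Finset.mem_univ, true_and, Equiv.symm_apply_apply]
      constructor
      · exact fun h => h.2
      · exact fun h => ⟨by omega, h⟩
    rw [← Submodule.Quotient.mk_eq_zero, ← Submodule.mkQ_apply, map_sub, map_sum, h3 S, sub_eq_zero]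
    refine Finset.sum_congr rfl fun i _ => ?_
    rw [h3 {i}, Finset.sum_singleton]

end Pool.Agent.Helper76.PD
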