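import Pool.Agent.Helper76.PD.Base
import Pool.Agent.Helper58.PD.Bip
import Pool.Agent.Helper32.Piv.Pivot3
import Pool.Agent.Helper35.PM.Defs3

/-!
# The universal subcubic graphs
-/

set_option autoImplicit false

namespace Pool.Agent.Helper76.PD

open Finset
open scoped Classical
open Pool.Agent.Helper35.PM (HasPG vec)
open Pool.Agent.Helper32.PD (bip bip_adj_inl_inr bip_adj_inr_inl not_bip_adj_inl_inl
  not_bip_adj_inr_inr)

/-- projective data give a projective geometry minor -/
theorem hasPG_of_PGD {ρ κ V : Type} [Fintype ρ] [DecidableEq ρ] {Rel : ρ → κ → Prop} {k : ℕ}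
    (h : PGD Rel k)
    (G : SimpleGraph V) (φ : ρ → V) (ψ : κ → V) (hφ : Function.Injective φ)
    (hind : ∀ r r', ¬ G.Adj (φ r) (φ r')) (hne : ∀ c r, ψ c ≠ φ r)
    (hadj : ∀ c r, G.Adj (ψ c) (φ r) ↔ Rel r c) : HasPG G k := by
  obtain ⟨D, f, Φ, h1, h2, h3⟩ := h
  set R : Finset V := univ.image φ with hR
  have hmemR : ∀ r, φ r ∈ R := fun r => Finset.mem_image_of_mem φ (Finset.mem_univ r)
  have hR' : ∀ x ∈ R, ∃ r, φ r = x := by
    intro x hx
    rw [hR, Finset.mem_image] at hx
    obtain ⟨r, _, hr⟩ := hx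
    exact ⟨r, hr⟩
  set ext : (ρ → ZMod 2) →ₗ[ZMod 2] (V → ZMod 2) :=
    Function.ExtendByZero.linearMap (ZMod 2) φ with hext
  have hextφ : ∀ v r, ext v (φ r) = v r := by
    intro v r
    rw [hext, Function.ExtendByZero.linearMap_apply]
    exact hφ.extend_apply _ _ _
  have hext0 : ∀ v x, x ∉ R → ext v x = 0 := by
    intro v x hx
    rw [hext, Function.ExtendByZero.linearMap_apply, Function.extend_apply']
    · rfl
    · rintro ⟨r, hr⟩
      exact hx (hr ▸ hmemR r)
  have hvecψ : ∀ c, vec G R (ψ c) = ext (cv Rel c) := by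
    intro c
    funext x
    by_cases hx : x ∈ R
    · obtain ⟨r, rfl⟩ := hR' x hx
      rw [hextφ]
      unfold vec cv
      by_cases h4 : Rel r c
      · rw [if_pos ⟨hx, Or.inr ((hadj c r).2 h4)⟩, if_pos h4]
      · rw [if_neg, if_neg h4]
        rintro ⟨_, h5 | h5⟩
        · exact hne c r h5
        · exact h4 ((hadj c r).1 h5)
    · rw [hext0 _ _ hx]
      unfold vec
      rw [if_neg]
      exact fun h4 => hx h4.1
  have hvecφ : ∀ r, vec G R (φ r) = ext (Pi.single r 1) := by
    intro r
    funext x
    by_cases hx : x ∈ R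
    · obtain ⟨r', rfl⟩ := hR' x hx
      rw [hextφ, Pi.single_apply]
      unfold vec
      by_cases h4 : r' = r
      · subst h4
        rw [if_pos ⟨hx, Or.inl rfl⟩, if_pos rfl]
      · rw [if_neg, if_neg h4]
        rintro ⟨_, h5 | h5⟩
        · exact h4 (hφ h5).symm
        · exact hind _ _ h5
    · rw [hext0 _ _ hx]
      unfold vec
      rw [if_neg]
      exact fun h4 => hx h4.1
  set res : (V → ZMod 2) →ₗ[ZMod 2] (ρ → ZMod 2) := LinearMap.funLeft (ZMod 2) (ZMod 2) φ with hres
  have hre : ∀ v, res (ext v) = v := by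
    intro v
    funext r
    rw [hres, LinearMap.funLeft_apply, hextφ]
  refine ⟨R, ?_, ψ '' D, fun S => φ (f S), Φ.comp res, ?_, ?_, ?_⟩
  · intro x hx y hy
    obtain ⟨r, rfl⟩ := hR' x hx
    obtain ⟨r', rfl⟩ := hR' y hy
    exact hind r r'
  · rintro _ ⟨c, hc, rfl⟩
    rw [LinearMap.comp_apply, hvecψ, hre]
    exact h1 c hc
  · intro S hS
    simp only
    rw [LinearMap.comp_apply, hvecφ, hre]
    exact h2 S hS
  · intro S hS
    simp only
    have h4 := Submodule.mem_map_of_mem (f := ext) (h3 S hS)
    rw [Submodule.map_span, map_sub, map_sum] at h4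
    have h5 : ext '' (cv Rel '' D) = vec G R '' (ψ '' D) := by
      rw [Set.image_image, Set.image_image]
      exact Set.image_congr' fun c => (hvecψ c).symm
    rw [h5] at h4
    rw [hvecφ]
    have h6 : ∑ i ∈ S, vec G R (φ (f {i})) = ∑ i ∈ S, ext (Pi.single (f {i}) 1) :=
      Finset.sum_congr rfl fun i _ => hvecφ _
    rw [h6]
    exact h4

/-- a relation as a family of edges on initial segments of the natural numbers -/
theorem exists_fin {ρ κ : Type} [Fintype ρ] [Fintype κ] (Rel : ρ → κ → Prop) :
    ∃ (N₀ N₁ N : ℕ) (a : Fin N → Fin N₀) (b : Fin N → Fin N₁) (u : ρ ≃ Fin N₀) (v : κ ≃ Fin N₁),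
      (∀ e e', a e = a e' → b e = b e' → e = e') ∧
      (∀ x, (univ.filter fun e => a e = u x).card = (univ.filter fun y => Rel x y).card) ∧
      (∀ y, (univ.filter fun e => b e = v y).card = (univ.filter fun x => Rel x y).card) ∧
      ∀ x y, (∃ e, a e = u x ∧ b e = v y) ↔ Rel x y := by
  set ε : Type := {p : ρ × κ // Rel p.1 p.2} with hε
  set w : ε ≃ Fin (Fintype.card ε) := Fintype.equivFin ε
  set u : ρ ≃ Fin (Fintype.card ρ) := Fintype.equivFin ρ
  set v : κ ≃ Fin (Fintype.card κ) := Fintype.equivFin κ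
  refine ⟨_, _, _, fun e => u (w.symm e).1.1, fun e => v (w.symm e).1.2, u, v, ?_, ?_, ?_, ?_⟩
  · intro e e' h1 h2
    have h3 := u.injective h1
    have h4 := v.injective h2
    exact w.symm.injective (Subtype.ext (Prod.ext h3 h4))
  · intro x
    have h1 : (univ.filter fun y => Rel x y) =
        (univ.filter fun e => u (w.symm e).1.1 = u x).image fun e => (w.symm e).1.2 := by
      ext y
      simp only [Finset.mem_filter, Finset.mem_univ, true_and, Finset.mem_image]
      constructor
      · intro h
        exact ⟨w ⟨(x, y), h⟩, by simp, by simp⟩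
      · rintro ⟨e, h2, h3⟩
        have h4 := u.injective h2
        have h5 := (w.symm e).2
        rw [h4, h3] at h5
        exact h5
    rw [h1, Finset.card_image_of_injOn]
    intro e he e' he' h
    simp only [Finset.coe_filter, Finset.mem_univ, true_and, Set.mem_ofPred_eq] at he he' h
    exact w.symm.injective (Subtype.ext (Prod.ext ((u.injective he).trans (u.injective he').symm) h))
  · intro y
    have h1 : (univ.filter fun x => Rel x y) =
        (univ.filter fun e => v (w.symm e).1.2 = v y).image fun e => (w.symm e).1.1 := by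
      ext x
      simp only [Finset.mem_filter, Finset.mem_univ, true_and, Finset.mem_image]
      constructor
      · intro h
        exact ⟨w ⟨(x, y), h⟩, by simp, by simp⟩
      · rintro ⟨e, h2, h3⟩
        have h4 := v.injective h2
        have h5 := (w.symm e).2
        rw [h4, h3] at h5
        exact h5
    rw [h1, Finset.card_image_of_injOn]
    intro e he e' he' h
    simp only [Finset.coe_filter, Finset.mem_univ, true_and, Set.mem_ofPred_eq] at he he' h
    exact w.symm.injective (Subtype.ext (Prod.ext h ((v.injective he).trans (v.injective he').symm)))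
  · intro x y
    constructor
    · rintro ⟨e, h1, h2⟩
      have h3 := u.injective h1
      have h4 := v.injective h2
      have h5 := (w.symm e).2
      rw [h3, h4] at h5
      exact h5
    · intro h
      exact ⟨w ⟨(x, y), h⟩, by simp, by simp⟩

/-! ### degrees of the universal relation -/

theorem card_col_le {k : ℕ} (c : Bool × Fin k × Fin (bl k)) :
    (univ.filter fun r => URel k r c).card ≤ 3 := by
  obtain ⟨b, i, t⟩ := c
  have hpos : 0 < bl k := Fintype.card_pos
  cases b
  · have h : (univ.filter fun r => URel k r (false, i, t)) ⊆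
        ({(false, i, t), (false, i, ⟨((t : ℕ) + 1) % bl k, Nat.mod_lt _ hpos⟩)} : Finset _) := by
      rintro ⟨b', i', t'⟩ hr
      have hr2 := (Finset.mem_filter.1 hr).2
      simp only [Finset.mem_insert, Finset.mem_singleton, Prod.mk.injEq]
      rcases hr2 with ⟨_, h1, h2, h3 | h3⟩ | ⟨h1, _⟩
      · exact Or.inl ⟨h1, h2, h3⟩
      · refine Or.inr ⟨h1, h2, Fin.ext ?_⟩
        simp only at h3 ⊢
        rw [← h3, Nat.mod_eq_of_lt t'.2]
      · exact absurd h1 (by simp)
    exact (Finset.card_le_card h).trans (Finset.card_le_two.trans (by norm_num))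
  · have h : (univ.filter fun r => URel k r (true, i, t)) ⊆
        ({(true, i, t), (true, ⟨(i : ℕ) - 1, by omega⟩, t), (false, i, t)} : Finset _) := by
      rintro ⟨b', i', t'⟩ hr
      have hr2 := (Finset.mem_filter.1 hr).2
      simp only [Finset.mem_insert, Finset.mem_singleton, Prod.mk.injEq]
      rcases hr2 with ⟨h1, _⟩ | ⟨_, h1, ⟨h2, h3 | h3⟩ | ⟨h2, h3, _⟩⟩
      · exact absurd h1 (by simp)
      · exact Or.inl ⟨h2, h3, h1⟩
      · refine Or.inr (Or.inl ⟨h2, Fin.ext ?_, h1⟩)
        simp only at h3 ⊢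
        omega
      · exact Or.inr (Or.inr ⟨h2, h3, h1⟩)
    exact (Finset.card_le_card h).trans Finset.card_le_three

/-- the columns of the second kind through a row -/
theorem card_row_true {k : ℕ} (r : Bool × Fin k × Fin (bl k)) :
    (univ.filter fun c : Bool × Fin k × Fin (bl k) => c.1 = true ∧ URel k r c).card ≤
      if r.1 = true then 2 else 1 := by
  obtain ⟨b, i, t⟩ := r
  cases b
  · have h : (univ.filter fun c : Bool × Fin k × Fin (bl k) => c.1 = true ∧
        URel k (false, i, t) c) ⊆ ({(true, i, t)} : Finset _) := by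
      rintro ⟨b', i', t'⟩ hr
      obtain ⟨h0, hr2⟩ := (Finset.mem_filter.1 hr).2
      simp only at h0
      simp only [Finset.mem_singleton, Prod.mk.injEq]
      rcases hr2 with ⟨h1, _⟩ | ⟨_, h1, ⟨h2, _⟩ | ⟨_, h3, _⟩⟩
      · rw [h0] at h1
        exact absurd h1 (by simp)
      · exact absurd h2 (by simp)
      · exact ⟨h0, h3.symm, h1.symm⟩
    exact (Finset.card_le_card h).trans (by simp)
  · have hk : 0 < k := lt_of_le_of_lt (Nat.zero_le _) i.2
    have h : (univ.filter fun c : Bool × Fin k × Fin (bl k) => c.1 = true ∧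
        URel k (true, i, t) c) ⊆
        ({(true, i, t), (true, ⟨((i : ℕ) + 1) % k, Nat.mod_lt _ hk⟩, t)} : Finset _) := by
      rintro ⟨b', i', t'⟩ hr
      obtain ⟨h0, hr2⟩ := (Finset.mem_filter.1 hr).2
      simp only at h0
      simp only [Finset.mem_insert, Finset.mem_singleton, Prod.mk.injEq]
      rcases hr2 with ⟨h1, _⟩ | ⟨_, h1, ⟨_, h3 | h3⟩ | ⟨h2, _⟩⟩
      · rw [h0] at h1
        exact absurd h1 (by simp)
      · exact Or.inl ⟨h0, h3.symm, h1.symm⟩
      · refine Or.inr ⟨h0, Fin.ext ?_, h1.symm⟩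
        simp only at h3 ⊢
        rw [h3, Nat.mod_eq_of_lt i'.2]
      · exact absurd h2 (by simp)
    exact (Finset.card_le_card h).trans Finset.card_le_two

/-- the columns of the first kind through a row -/
theorem card_row_false {k : ℕ} (r : Bool × Fin k × Fin (bl k)) :
    (univ.filter fun c : Bool × Fin k × Fin (bl k) => c.1 = false ∧ URel k r c).card ≤
      if r.1 = true then 0 else 2 := by
  obtain ⟨b, i, t⟩ := r
  have hpos : 0 < bl k := Fintype.card_pos
  cases b
  · have h : (univ.filter fun c : Bool × Fin k × Fin (bl k) => c.1 = false ∧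
        URel k (false, i, t) c) ⊆
        ({(false, i, t), (false, i, ⟨(t : ℕ) - 1, by omega⟩)} : Finset _) := by
      rintro ⟨b', i', t'⟩ hr
      obtain ⟨h0, hr2⟩ := (Finset.mem_filter.1 hr).2
      simp only at h0
      simp only [Finset.mem_insert, Finset.mem_singleton, Prod.mk.injEq]
      rcases hr2 with ⟨_, _, h2, h3 | h3⟩ | ⟨h1, _⟩
      · exact Or.inl ⟨h0, h2.symm, h3.symm⟩
      · refine Or.inr ⟨h0, h2.symm, Fin.ext ?_⟩
        simp only at h3 ⊢
        omega
      · rw [h0] at h1
        exact absurd h1 (by simp)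
    exact (Finset.card_le_card h).trans Finset.card_le_two
  · have h : (univ.filter fun c : Bool × Fin k × Fin (bl k) => c.1 = false ∧
        URel k (true, i, t) c) ⊆ (∅ : Finset _) := by
      rintro ⟨b', i', t'⟩ hr
      obtain ⟨h0, hr2⟩ := (Finset.mem_filter.1 hr).2
      simp only at h0
      rcases hr2 with ⟨_, h1, _⟩ | ⟨h1, _⟩
      · exact absurd h1 (by simp)
      · rw [h0] at h1
        exact absurd h1 (by simp)
    exact (Finset.card_le_card h).trans (by simp)

theorem card_row_le {k : ℕ} (r : Bool × Fin k × Fin (bl k)) :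
    (univ.filter fun c => URel k r c).card ≤ 3 := by
  have h : (univ.filter fun c => URel k r c) ⊆
      (univ.filter fun c : Bool × Fin k × Fin (bl k) => c.1 = true ∧ URel k r c) ∪
        (univ.filter fun c : Bool × Fin k × Fin (bl k) => c.1 = false ∧ URel k r c) := by
    intro c hc
    simp only [Finset.mem_filter, Finset.mem_univ, true_and, Finset.mem_union] at hc ⊢
    cases h1 : c.1
    · exact Or.inr ⟨rfl, hc⟩
    · exact Or.inl ⟨rfl, hc⟩
  have h1 := card_row_true r
  have h2 := card_row_false r
  have h3 := (Finset.card_le_card h).trans (Finset.card_union_le _ _)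
  split_ifs at h1 h2 <;> omega

end Pool.Agent.Helper76.PD
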